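import Pool.Agent.Helper82.CN.St

/-!
# Project CN, module RHO: the relative variance
-/

set_option autoImplicit false

namespace Pool.Agent.Helper6.CN

open Finset Pool.Agent.Helper82.CN

private lemma desc_RHO (n l : ℕ) (h : 2 * l ^ 2 ≤ n) (hn : 1 ≤ n) :
    (n : ℝ) ^ l / 2 ≤ (n.descFactorial l : ℝ) := by
  have h1 : (n + 1 - l) ^ l ≤ n.descFactorial l := Nat.pow_sub_le_descFactorial n l
  have hln : l ≤ n := by nlinarith
  have h2 : (((n + 1 - l) ^ l : ℕ) : ℝ) ≤ (n.descFactorial l : ℝ) := by exact_mod_cast h1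
  refine le_trans ?_ h2
  have hn0 : (0 : ℝ) < n := by exact_mod_cast hn
  have hcast : (((n + 1 - l : ℕ)) : ℝ) = n * (1 + (1 - (l : ℝ)) / n) := by
    rw [Nat.cast_sub (by omega)]
    push_cast
    field_simp
    ring
  rw [Nat.cast_pow, hcast, mul_pow]
  have h3 : (1 : ℝ) + l * ((1 - (l : ℝ)) / n) ≤ (1 + (1 - (l : ℝ)) / n) ^ l := by
    refine one_add_mul_le_pow ?_ l
    have hl : (l : ℝ) ≤ n := by exact_mod_cast hln
    rw [le_div_iff₀ hn0]
    linarith
  have h4 : (1 : ℝ) / 2 ≤ 1 + l * ((1 - (l : ℝ)) / n) := by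
    have h5 : (2 : ℝ) * (l : ℝ) ^ 2 ≤ n := by exact_mod_cast h
    have h6 : (l : ℝ) * ((1 - (l : ℝ)) / n) = (l * (1 - l)) / n := by ring
    have h7 : -(1 : ℝ) / 2 ≤ (l * (1 - l)) / n := by
      rw [le_div_iff₀ hn0]
      have : (0 : ℝ) ≤ l := Nat.cast_nonneg l
      nlinarith
    rw [h6]
    linarith
  have hp : (0 : ℝ) ≤ (n : ℝ) ^ l := by positivity
  calc (n : ℝ) ^ l / 2 = (n : ℝ) ^ l * (1 / 2) := by ring
    _ ≤ (n : ℝ) ^ l * (1 + (1 - (l : ℝ)) / n) ^ l :=
        mul_le_mul_of_nonneg_left (h4.trans h3) hp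

private lemma exp_hv_RHO (p : ℝ) (hp1 : p < 1) (n l : ℕ) (hn : 1 ≤ n) :
    Real.exp (hv p n l) = (n : ℝ) ^ l / l.factorial * (1 - p) ^ (l.choose 2) := by
  have hn0 : (0 : ℝ) < n := by exact_mod_cast hn
  have hf : (0 : ℝ) < l.factorial := by exact_mod_cast Nat.factorial_pos l
  have hq : 0 < 1 - p := by linarith
  have hbb : bb p = -Real.log (1 - p) := by
    unfold bb
    rw [one_div, Real.log_inv]
  unfold hv
  rw [hbb, Real.exp_sub, Real.exp_sub, Real.exp_log hf, Real.exp_nat_mul, Real.exp_log hn0,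
    mul_neg, Real.exp_neg, Real.exp_nat_mul, Real.exp_log hq, div_inv_eq_mul]

private lemma Mk_ge_RHO (p : ℝ) (hp1 : p < 1) (n l : ℕ) (h : 2 * l ^ 2 ≤ n) (hn : 1 ≤ n) :
    Real.exp (hv p n l) / 2 ≤ Mk p n l := by
  rw [exp_hv_RHO p hp1 n l hn]
  unfold Mk
  have h1 := desc_RHO n l h hn
  rw [Nat.descFactorial_eq_factorial_mul_choose, Nat.cast_mul] at h1
  have hf : (0 : ℝ) < l.factorial := by exact_mod_cast Nat.factorial_pos l
  have hq : 0 ≤ (1 - p) ^ (l.choose 2) := pow_nonneg (by linarith) _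
  have h2 : (n : ℝ) ^ l / l.factorial / 2 ≤ (n.choose l : ℝ) := by
    rw [div_div, div_le_iff₀ (by positivity)]
    nlinarith
  calc (n : ℝ) ^ l / l.factorial * (1 - p) ^ (l.choose 2) / 2
      = ((n : ℝ) ^ l / l.factorial / 2) * (1 - p) ^ (l.choose 2) := by ring
    _ ≤ _ := mul_le_mul_of_nonneg_right h2 hq

/-- one term -/
private lemma term_RHO (p : ℝ) (hp1 : p < 1) (n k l : ℕ) (hn : 1 ≤ n) (hk2 : 2 * k ^ 2 ≤ n)
    (hl2 : 2 ≤ l) (hlk : l ≤ k) (ε L β : ℝ) (hβ0 : 0 < β)
    (hε : 0 < ε) (hε1 : ε ≤ 1 / 100)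
    (hL : 0 < L) (hLn : L = Real.log n) (hβ : bb p = β)
    (hlogk : Real.log k ≤ ε * L) (hlogL : Real.log L ≤ ε * L)
    (hβL : β ≤ ε * L) (hkβ : k * β ≤ (2 + ε) * L)
    (hA : l * (Real.log n - l * bb p / 2 - Real.log l) ≤ hv p n l)
    (hB : k ≤ 2 * l →
      hv p n k + ((k : ℝ) - l) * (Real.log n / 2 - 4 * Real.log (Real.log n)) ≤ hv p n l)
    (x : ℝ) (hM : x * L - ε * L ≤ hv p n k) :
    (k.choose l : ℝ) ^ 2 / Mk p n l ≤
      2 * (Real.exp (-(2 * L) + 10 * ε * L) + Real.exp (-(x * L) + ε * L)) := by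
  have hk0 : 0 < k := by omega
  have hkR : (0 : ℝ) < k := by exact_mod_cast hk0
  have hl0 : (0 : ℝ) < l := by
    have : 0 < l := by omega
    exact_mod_cast this
  have hMk := Mk_ge_RHO p hp1 n l (le_trans (by gcongr) hk2) hn
  have hE : 0 < Real.exp (hv p n l) := Real.exp_pos _
  have hMk0 : 0 < Mk p n l := by linarith
  have h1 : (k.choose l : ℝ) ^ 2 / Mk p n l ≤
      2 * ((k.choose l : ℝ) ^ 2 * Real.exp (-hv p n l)) := by
    rw [div_le_iff₀ hMk0, Real.exp_neg]
    have h2 : (0 : ℝ) ≤ (k.choose l : ℝ) ^ 2 := by positivity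
    calc (k.choose l : ℝ) ^ 2 = 2 * ((k.choose l : ℝ) ^ 2 * (Real.exp (hv p n l))⁻¹) *
          (Real.exp (hv p n l) / 2) := by field_simp
      _ ≤ _ := mul_le_mul_of_nonneg_left hMk (by positivity)
  refine h1.trans ?_
  refine mul_le_mul_of_nonneg_left ?_ (by norm_num)
  have hlk' : (l : ℝ) ≤ k := by exact_mod_cast hlk
  have hl2' : (2 : ℝ) ≤ l := by exact_mod_cast hl2
  have hεL : ε * L ≤ (1 / 100) * L := mul_le_mul_of_nonneg_right hε1 hL.le
  have hεL0 : 0 < ε * L := mul_pos hε hL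
  have hpow : ∀ j : ℕ, (k.choose j : ℝ) ^ 2 ≤ Real.exp (2 * j * Real.log k) := by
    intro j
    have h3 : (k.choose j : ℝ) ≤ (k : ℝ) ^ j := by
      exact_mod_cast (Nat.choose_le_pow k j)
    have h4 : Real.exp (2 * j * Real.log k) = ((k : ℝ) ^ j) ^ 2 := by
      rw [← pow_mul, mul_comm j 2, ← Real.exp_log hkR, ← Real.exp_nat_mul, Real.log_exp]
      push_cast
      ring_nf
    rw [h4]
    exact pow_le_pow_left₀ (by positivity) h3 2
  by_cases h2l : k ≤ 2 * l
  · -- near k
    have h5 := hB h2l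
    have h6 := hpow (k - l)
    rw [Nat.choose_symm hlk, Nat.cast_sub hlk] at h6
    rw [← hLn] at h5
    have h7 : (k.choose l : ℝ) ^ 2 * Real.exp (-hv p n l) ≤ Real.exp (-(x * L) + ε * L) := by
      calc (k.choose l : ℝ) ^ 2 * Real.exp (-hv p n l)
          ≤ Real.exp (2 * ((k : ℝ) - l) * Real.log k) * Real.exp (-hv p n l) :=
            mul_le_mul_of_nonneg_right h6 (Real.exp_pos _).le
        _ = Real.exp (2 * ((k : ℝ) - l) * Real.log k + -hv p n l) := by rw [Real.exp_add]
        _ ≤ _ := by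
          refine Real.exp_le_exp.2 ?_
          have h8 : ((k : ℝ) - l) * (2 * Real.log k - (L / 2 - 4 * Real.log L)) ≤ 0 := by
            refine mul_nonpos_of_nonneg_of_nonpos (by linarith) ?_
            linarith
          have h9 : 2 * ((k : ℝ) - l) * Real.log k =
              ((k : ℝ) - l) * (2 * Real.log k - (L / 2 - 4 * Real.log L)) +
                ((k : ℝ) - l) * (L / 2 - 4 * Real.log L) := by ring
          linarith
    have := Real.exp_pos (-(2 * L) + 10 * ε * L)
    linarith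
  · push Not at h2l
    have h2l' : 2 * (l : ℝ) ≤ k := by exact_mod_cast h2l.le
    have h6 := hpow l
    have hlogl : Real.log l ≤ Real.log k := Real.log_le_log hl0 hlk'
    rw [← hLn, hβ] at hA
    have h7 : (k.choose l : ℝ) ^ 2 * Real.exp (-hv p n l) ≤
        Real.exp (-(2 * L) + 10 * ε * L) := by
      calc (k.choose l : ℝ) ^ 2 * Real.exp (-hv p n l)
          ≤ Real.exp (2 * l * Real.log k) * Real.exp (-hv p n l) :=
            mul_le_mul_of_nonneg_right h6 (Real.exp_pos _).le
        _ = Real.exp (2 * l * Real.log k + -hv p n l) := by rw [Real.exp_add]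
        _ ≤ _ := by
          refine Real.exp_le_exp.2 ?_
          have h8 : 2 * l * Real.log k + -hv p n l ≤
              -(l * (L - l * β / 2 - 3 * Real.log k)) := by
            have e1 := mul_le_mul_of_nonneg_left hlogl hl0.le
            have e2 : (l : ℝ) * (L - l * β / 2 - Real.log l) =
              l * (L - l * β / 2 - 3 * Real.log k) + 3 * (l * Real.log k) - l * Real.log l := by
              ring
            have e3 : 2 * (l : ℝ) * Real.log k = 2 * (l * Real.log k) := by ring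
            rw [e3]
            linarith
          refine h8.trans ?_
          rcases Nat.lt_or_ge l 5 with hl5 | hl5
          · have hl4 : (l : ℝ) ≤ 4 := by
              have : l ≤ 4 := by omega
              exact_mod_cast this
            have e0 : (1 - 5 * ε) * L = L - 5 * (ε * L) := by ring
            have e1 := mul_le_mul_of_nonneg_right hl4 hβ0.le
            have h9 : (1 - 5 * ε) * L ≤ L - l * β / 2 - 3 * Real.log k := by
              rw [e0]
              linarith
            have h10 : 0 ≤ (1 - 5 * ε) * L := by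
              apply mul_nonneg _ hL.le
              linarith
            have h13 := mul_le_mul hl2' h9 h10 (by linarith)
            have e2 : 2 * ((1 - 5 * ε) * L) = 2 * L - 10 * ε * L := by ring
            rw [e2] at h13
            linarith
          · have hl5' : (5 : ℝ) ≤ l := by exact_mod_cast hl5
            have e1 := mul_le_mul_of_nonneg_right h2l' hβ0.le
            have e0 : (2 + ε) * L = 2 * L + ε * L := by ring
            have e3 : 2 * (l : ℝ) * β = 2 * (l * β) := by ring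
            rw [e0] at hkβ
            rw [e3] at e1
            have h9 : (2 / 5) * L ≤ L - l * β / 2 - 3 * Real.log k := by linarith
            have h10 : 0 ≤ (2 / 5) * L := by positivity
            have h13 := mul_le_mul hl5' h9 h10 (by linarith)
            have e4 : 10 * ε * L = 10 * (ε * L) := by ring
            rw [e4]
            linarith
    have := Real.exp_pos (-(x * L) + ε * L)
    linarith

theorem tRHO : StMkb → StHvb → StRho := by
  intro hMkb hHvb p K δ hp0 hp1 hK hδ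
  set β := bb p with hβdef
  have hβ0 : 0 < β := by
    rw [hβdef]
    unfold bb
    refine Real.log_pos ?_
    rw [one_div]
    exact (one_lt_inv₀ (by linarith)).2 (by linarith)
  set ε : ℝ := min (1 / 100) (δ / 16) with hεdef
  have hε : 0 < ε := lt_min (by norm_num) (by positivity)
  have hε1 : ε ≤ 1 / 100 := min_le_left _ _
  have hε2 : ε ≤ δ / 16 := min_le_right _ _
  obtain ⟨n1, h1⟩ := hMkb p K ε hp0 hp1 hK hε
  obtain ⟨n2, h2⟩ := hHvb p K hp0 hp1 hK
  have hlogt : Filter.Tendsto (fun n : ℕ => Real.log (n : ℝ)) Filter.atTop Filter.atTop :=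
    Real.tendsto_log_atTop.comp tendsto_natCast_atTop_atTop
  -- conditions on L
  set C₂ : ℝ := 2 / β + 1 with hC₂
  have hC₂0 : 0 < C₂ := by positivity
  have hev : ∀ᶠ L : ℝ in Filter.atTop, 1 ≤ L ∧ β ≤ L ∧ β ≤ ε * L ∧
      (2 + β + K * β) ≤ ε * L ∧ (2 + β + K * β) / β ≤ L ∧
      Real.log L ≤ (ε / 2) * L ∧ Real.log C₂ ≤ (ε / 2) * L ∧ Real.log 2 ≤ ε * L := by
    have e1 : ∀ c : ℝ, ∀ᶠ L : ℝ in Filter.atTop, c ≤ L := fun c => Filter.eventually_ge_atTop c
    have e2 : ∀ c d : ℝ, 0 < d → ∀ᶠ L : ℝ in Filter.atTop, c ≤ d * L := by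
      intro c d hd
      filter_upwards [e1 (c / d)] with L hL
      rwa [div_le_iff₀ hd, mul_comm] at hL
    have e3 : ∀ᶠ L : ℝ in Filter.atTop, Real.log L ≤ (ε / 2) * L := by
      have := Real.isLittleO_log_id_atTop.def (show 0 < ε / 2 by positivity)
      filter_upwards [this, e1 1] with L hL hL1
      rw [Real.norm_eq_abs, Real.norm_eq_abs, id, abs_of_nonneg (by linarith : (0:ℝ) ≤ L)] at hL
      exact (le_abs_self _).trans hL
    filter_upwards [e1 1, e1 β, e2 β ε hε, e2 _ ε hε, e1 ((2 + β + K * β) / β), e3,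
      e2 (Real.log C₂) (ε / 2) (by positivity), e2 (Real.log 2) ε hε] with L a b c d e f g h
    exact ⟨a, b, c, d, e, f, g, h⟩
  obtain ⟨n3, h3⟩ := Filter.eventually_atTop.1 (hlogt.eventually hev)
  refine ⟨max (max n1 n2) (max n3 1), fun n k hn hk => ?_⟩
  have hn1 : n1 ≤ n := le_trans (le_trans (le_max_left _ _) (le_max_left _ _)) hn
  have hn2 : n2 ≤ n := le_trans (le_trans (le_max_right _ _) (le_max_left _ _)) hn
  have hn3 : n3 ≤ n := le_trans (le_trans (le_max_left _ _) (le_max_right _ _)) hn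
  have hn4 : 1 ≤ n := le_trans (le_trans (le_max_right _ _) (le_max_right _ _)) hn
  obtain ⟨a1, a2, a3, a4, a5, a6, a7, a8⟩ := h3 n hn3
  set L : ℝ := Real.log n with hLdef
  have hL0 : 0 < L := by linarith
  have hnR : (0 : ℝ) < n := by exact_mod_cast hn4
  rcases Nat.lt_or_ge k 2 with hk2 | hk2
  · have : Icc 2 k = ∅ := Finset.Icc_eq_empty (by omega)
    rw [this, sum_empty]
    positivity
  have hkR : (0 : ℝ) < k := by
    have : 0 < k := by omega
    exact_mod_cast this
  -- size of k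
  have hkα : (k : ℝ) ≤ al p n + K := by
    have := (abs_le.1 hk).2
    linarith
  have hkβ0 : k * β ≤ 2 * L + (2 + β + K * β) := by
    have e1 : (k : ℝ) * β ≤ (al p n + K) * β := mul_le_mul_of_nonneg_right hkα hβ0.le
    have e2 : al p n * β = 2 * L - 2 * Real.log (L / β) + 2 * (1 - Real.log 2) + β := by
      unfold al
      rw [← hβdef, ← hLdef]
      field_simp
    have e3 : 0 ≤ Real.log (L / β) := by
      refine Real.log_nonneg ?_
      rw [le_div_iff₀ hβ0]
      linarith
    have e4 : 0 ≤ Real.log 2 := Real.log_nonneg (by norm_num)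
    rw [add_mul, e2] at e1
    linarith
  have hεL0 : 0 < ε * L := mul_pos hε hL0
  have hkβ : k * β ≤ (2 + ε) * L := by
    have e0 : (2 + ε) * L = 2 * L + ε * L := by ring
    rw [e0]
    linarith
  have hkC : (k : ℝ) ≤ C₂ * L := by
    have e1 : (k : ℝ) = k * β / β := by field_simp
    have e2 : C₂ * L = 2 * L / β + L := by rw [hC₂]; ring
    rw [e1, e2]
    have e3 : k * β / β ≤ (2 * L + (2 + β + K * β)) / β := div_le_div_of_nonneg_right hkβ0 hβ0.le
    rw [add_div] at e3
    linarith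
  have hlogk : Real.log k ≤ ε * L := by
    have e1 : Real.log k ≤ Real.log (C₂ * L) := Real.log_le_log hkR hkC
    rw [Real.log_mul hC₂0.ne' hL0.ne'] at e1
    linarith
  have hlogL : Real.log L ≤ ε * L := by
    have e0 : ε / 2 * L = (ε * L) / 2 := by ring
    rw [e0] at a6
    linarith
  -- 2 k^2 ≤ n
  have hexpk : (k : ℝ) ≤ Real.exp (ε * L) := by
    rw [← Real.exp_log hkR]
    exact Real.exp_le_exp.2 hlogk
  have hexp2 : (2 : ℝ) ≤ Real.exp (ε * L) := by
    rw [← Real.exp_log (show (0 : ℝ) < 2 by norm_num)]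
    exact Real.exp_le_exp.2 a8
  have hexpn : Real.exp L = n := Real.exp_log hnR
  have hk2n : 2 * k ^ 2 ≤ n := by
    have e1 : (2 : ℝ) * (k : ℝ) ^ 2 ≤ n := by
      rw [← hexpn]
      calc (2 : ℝ) * (k : ℝ) ^ 2 ≤ Real.exp (ε * L) * (Real.exp (ε * L)) ^ 2 :=
            mul_le_mul hexp2 (pow_le_pow_left₀ hkR.le hexpk 2) (by positivity) (Real.exp_pos _).le
        _ = Real.exp (3 * ε * L) := by
            rw [← Real.exp_nat_mul, ← Real.exp_add]
            congr 1
            push_cast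
            ring
        _ ≤ Real.exp L := Real.exp_le_exp.2 (by
            have e0 : 3 * ε * L = 3 * (ε * L) := by ring
            have e1 := mul_le_mul_of_nonneg_right hε1 hL0.le
            rw [e0]
            linarith)
    exact_mod_cast e1
  have hM := (abs_le.1 (h1 n k hn1 hk)).1
  set x : ℝ := al p n - k with hx
  have hterm : ∀ l ∈ Icc 2 k, (k.choose l : ℝ) ^ 2 / Mk p n l ≤
      2 * (Real.exp (-(2 * L) + 10 * ε * L) + Real.exp (-(x * L) + ε * L)) := by
    intro l hl
    obtain ⟨hl2, hlk⟩ := Finset.mem_Icc.1 hl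
    obtain ⟨hA, hB⟩ := h2 n k l hn2 hk (by omega) hlk
    exact term_RHO p hp1 n k l hn4 hk2n hl2 hlk ε L β hβ0 hε hε1 hL0 hLdef hβdef.symm hlogk
      hlogL a3 hkβ hA hB x (by linarith)
  have hsum := Finset.sum_le_card_nsmul _ _ _ hterm
  rw [Nat.card_Icc, nsmul_eq_mul] at hsum
  refine hsum.trans ?_
  have hcard : ((k + 1 - 2 : ℕ) : ℝ) ≤ k := by
    have : k + 1 - 2 ≤ k := by omega
    exact_mod_cast this
  set A := Real.exp (-(2 * L) + 10 * ε * L) + Real.exp (-(x * L) + ε * L) with hAdef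
  have hA0 : 0 < A := by positivity
  have hpow : ∀ y : ℝ, (n : ℝ) ^ y = Real.exp (L * y) := fun y => Real.rpow_def_of_pos hnR y
  calc ((k + 1 - 2 : ℕ) : ℝ) * (2 * A) ≤ Real.exp (ε * L) * (Real.exp (ε * L) * A) := by
        refine mul_le_mul (hcard.trans hexpk) ?_ (by positivity) (Real.exp_pos _).le
        exact mul_le_mul_of_nonneg_right hexp2 hA0.le
    _ = Real.exp (-(2 * L) + 12 * ε * L) + Real.exp (-(x * L) + 3 * ε * L) := by
        rw [hAdef, mul_add, mul_add, ← Real.exp_add, ← Real.exp_add, ← Real.exp_add,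
          ← Real.exp_add]
        congr 2 <;> ring
    _ ≤ Real.exp (L * δ + L * -2) + Real.exp (L * δ + L * -x) := by
        have e1 := mul_le_mul_of_nonneg_right hε2 hL0.le
        have e2 : δ / 16 * L = (L * δ) / 16 := by ring
        have e3 : 12 * ε * L = 12 * (ε * L) := by ring
        have e4 : 3 * ε * L = 3 * (ε * L) := by ring
        have e5 : L * -x = -(x * L) := by ring
        rw [e2] at e1
        refine add_le_add (Real.exp_le_exp.2 ?_) (Real.exp_le_exp.2 ?_)
        · rw [e3]; linarith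
        · rw [e4, e5]; linarith
    _ = (n : ℝ) ^ δ * ((n : ℝ) ^ (-x) + (n : ℝ) ^ (-(2 : ℝ))) := by
        rw [hpow, hpow, hpow, mul_add, ← Real.exp_add, ← Real.exp_add]
        ring_nf

end Pool.Agent.Helper6.CN
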